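import Pool.Agent.H430R2.PermCubes.Upper
import Pool.Agent.H430R2.PermCubes.Three

set_option autoImplicit false

/-!
# The value of `π_3(q)` for every prime power `q ≥ 3`

`π_3(q) = q + 1` for odd `q` and `π_3(q) = q + 2` for even `q ≥ 4`.
-/

open Pool.Agent.H430R2.PermCubes

/-- For every prime power `q ≥ 3` the largest size of a variational set of three-dimensional
permutation cubes of order `q` is `q + 1` if `q` is odd and `q + 2` if `q` is even. -/
theorem Pool.Agent.Results.MP_c7a479_co.DimensionThree.result :
    ∀ q : ℕ, IsPrimePow q → 3 ≤ q → IsPi 3 q (if Odd q then q + 1 else q + 2) := by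
  intro q hq h3
  by_cases hodd : Odd q
  · rw [if_pos hodd]
    refine ⟨three_odd hq (Nat.odd_iff.1 hodd), ?_⟩
    rintro k ⟨C, hC⟩
    have := IsArray.le_odd hC.2 le_rfl (by omega) (Nat.odd_iff.1 hodd)
    omega
  · rw [if_neg hodd]
    have heven : q % 2 = 0 := Nat.even_iff.1 (Nat.not_odd_iff_even.1 hodd)
    refine ⟨three_even hq heven (by omega), ?_⟩
    rintro k ⟨C, hC⟩
    have := IsArray.le_general hC.2 (by norm_num) (by omega)
    omega
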