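import Pool.Agent.H430R2.PermCubes.Upper
import Pool.Agent.H430R2.PermCubes.Lower
import Pool.Agent.H430R2.PermCubes.Two

set_option autoImplicit false

/-!
# The value of `π_m(n)` for every dimension `m ≥ n`, `n ≠ 6`

`π_m(2) = m - 1` and `π_m(n) = m + 1` for all `m ≥ n ≥ 3`, `n ≠ 6`.
-/

open Pool.Agent.H430R2.PermCubes

/-- For all `m ≥ n ≥ 2` with `n ≠ 6`: the largest size of a variational set of `m`-dimensional
permutation cubes of order `n` is `m + 1`, except that it is `m - 1` for `n = 2`. -/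
theorem Pool.Agent.Results.MP_c7a479_co.LargeDimension.result :
    ∀ m n : ℕ, 2 ≤ n → n ≤ m → n ≠ 6 → IsPi m n (if n = 2 then m - 1 else m + 1) := by
  intro m n hn hnm h6
  by_cases h2 : n = 2
  · subst h2
    rw [if_pos rfl]
    exact ⟨exists_vacuous m 2 (m - 1) (by norm_num) (by omega),
      fun k ⟨C, hC⟩ => two_le hC hnm⟩
  · rw [if_neg h2]
    refine ⟨exists_succ (by omega) (by omega) h2 h6, ?_⟩
    rintro k ⟨C, hC⟩
    exact IsArray.le_add_one hC.2 hn hnm
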