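import Pool.Agent.H430R2.PermCubes.General

set_option autoImplicit false

/-!
# A lower bound for `π_m(n)`, all `m ≥ 3` and all `n ≥ 3`, `n ≠ 6`

If every prime power exactly dividing `n` is at least `u`, then `π_m(n) ≥ max(m, u) + 1`.
In particular `π_m(n) ≥ m + 1` for all `m ≥ 3` and `n ≠ 2, 6`.
-/

open Pool.Agent.H430R2.PermCubes

/-- For all `m ≥ 3` and `n ≥ 3`, `n ≠ 6`, and every `u` that is at most each of the prime powers
exactly dividing `n`, there is a variational set of `max m u + 1` cubes. -/
theorem Pool.Agent.Results.MP_c7a479_co.LowerBound.result :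
    ∀ m n u : ℕ, 3 ≤ m → 3 ≤ n → n ≠ 6 →
      (∀ p : ℕ, p.Prime → p ∣ n → u ≤ p ^ n.factorization p) →
      ∃ C : Fin (max m u + 1) → (Fin m → Fin n) → Fin n,
        IsVariationalSet m n (max m u + 1) C := by
  intro m n u hm hn h6 hu
  rcases Nat.lt_or_ge m u with h | h
  · rw [max_eq_right h.le]
    exact varOver_all hm h.le n (by omega) hu
  · rw [max_eq_left h]
    exact exists_succ hm (by omega) (by omega) h6
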