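import Pool.Agent.H430R2.PermCubes.Upper

set_option autoImplicit false

/-!
# An upper bound for `π_m(n)`

`π_m(n) ≤ m + n - 1`, and `π_m(n) ≤ m + n - 2` if `m ≥ 3` and `n` is odd.
-/

open Pool.Agent.H430R2.PermCubes

/-- A variational set of `k` cubes of dimension `m ≥ 2` and order `n ≥ 2` has
`k ≤ m + n - 1`, and `k ≤ m + n - 2` if moreover `m ≥ 3` and `n` is odd. -/
theorem Pool.Agent.Results.MP_c7a479_co.UpperBound.result :
    ∀ (m n k : ℕ) (C : Fin k → (Fin m → Fin n) → Fin n), 2 ≤ m → 2 ≤ n →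
      IsVariationalSet m n k C → k ≤ if 3 ≤ m ∧ Odd n then m + n - 2 else m + n - 1 := by
  intro m n k C hm hn hC
  split_ifs with h
  · have := IsArray.le_odd hC.2 h.1 hn (Nat.odd_iff.1 h.2)
    omega
  · have := IsArray.le_general hC.2 hm hn
    omega
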